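import Pool.Agent.X216.TR

/-!
# A Borel set with uncountably many pairwise disjoint translates but no perfect family of them

We prove in ZFC that there is a Borel set `B` in the Cantor group `2^ω` which has uncountably many
pairwise disjoint translates but has no perfect family of pairwise disjoint translates.

The translates of `B` by `x` and `y` are disjoint if and only if `x + y` is not in `B + B`. Let `A`
be the `F_σ` subset of the group `Γ = 2^{2^{<ω}}` of the sums `φ(x) + φ(y)` such that `x` is a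
column of `y` and `x ≠ y`, where `φ : 2^ω → Γ` maps a point to the set of its initial segments. There
is an uncountable set but no perfect set all of whose sums of two distinct elements are in `A`. We
find a Borel set `B` in `Γ × Γ × U`, where `U = (ZMod 2)³ × Γ × Γ`, such that the complement of
`B + B` is `A × {0} × {0}`. It is the union of the sets `{(0, 0)} × S`, of
`{(p, q, (001, p, q)) : (p, q) ∉ A × {0}}`, of `{(x, x, t) : t ∈ T₁}` and of
`{(0, y, u) : u ∈ T₂}`, where `S` is the set of the `u ∈ U` with the marker `001`, `T₁` has three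
elements, `T₂` is the complement of `T₁ ∪ S` and `T₁ + T₂ = U \ {0}`.
-/

set_option autoImplicit false

open Set Filter Topology MeasureTheory

namespace Pool.Agent.Results.MP_15e54c_lc.DisjointTranslates

open Pool.Agent.X216.TR

/-- the group of the markers -/
abbrev M : Type := ZMod 2 × ZMod 2 × ZMod 2

/-- the product group -/
abbrev Gp : Type := Γ × Γ × M × Γ × Γ

/-- the part with the marker `001` -/
def B₁ : Set Gp := {g | g.2.2.1 = (0, 0, 1) ∧ ((g.1 = 0 ∧ g.2.1 = 0) ∨
  ((g.1 = g.2.2.2.1 ∧ g.2.1 = g.2.2.2.2) ∧ ¬ (g.2.2.2.1 ∈ A ∧ g.2.2.2.2 = 0)))}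

/-- the three-element set -/
def T₁ : Set (M × Γ × Γ) := {u | (u.1 = 0 ∨ u.1 = (1, 0, 0) ∨ u.1 = (0, 1, 0)) ∧ u.2 = 0}

/-- the diagonal part -/
def B₂ : Set Gp := {g | g.2.2 ∈ T₁ ∧ g.1 = g.2.1}

/-- the complement of the set `T₁` and of the set of the elements with the marker `001` -/
def T₂ : Set (M × Γ × Γ) := {u | u.1 ≠ (0, 0, 1) ∧ u ∉ T₁}

/-- the last part -/
def B₃ : Set Gp := {g | g.2.2 ∈ T₂ ∧ g.1 = 0}

/-- the set in the product -/
def B₀ : Set Gp := B₁ ∪ (B₂ ∪ B₃)

lemma exists_split {u : M × Γ × Γ} (hu : u ≠ 0) : ∃ t ∈ T₁, ∃ s ∈ T₂, t + s = u := by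
  have key : ∀ t ∈ T₁, t + u ∈ T₂ → ∃ t ∈ T₁, ∃ s ∈ T₂, t + s = u := by
    intro t ht htu
    refine ⟨t, ht, t + u, htu, ?_⟩
    have h1 : t + t = 0 := by
      refine Prod.ext ?_ (Prod.ext (two_mul_φ _) (two_mul_φ _))
      show t.1 + t.1 = 0
      generalize t.1 = c
      revert c
      decide
    rw [← add_assoc, h1, zero_add]
  by_cases h1 : u.1 = (0, 0, 1)
  · refine key ((1, 0, 0), 0) ⟨Or.inr (Or.inl rfl), rfl⟩ ?_
    have h2 : (((1, 0, 0), 0) + u : M × Γ × Γ).1 = (1, 0, 1) := by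
      show (1, 0, 0) + u.1 = (1, 0, 1)
      rw [h1]
      decide
    refine ⟨?_, ?_⟩
    · rw [h2]
      decide
    · rintro ⟨h3, -⟩
      rw [h2] at h3
      revert h3
      decide
  · by_cases h2 : u ∈ T₁
    · obtain ⟨h3, h4⟩ := h2
      rcases h3 with h3 | h3 | h3
      · exact absurd (Prod.ext h3 h4) hu
      · refine key ((0, 1, 0), 0) ⟨Or.inr (Or.inr rfl), rfl⟩ ?_
        have h2 : (((0, 1, 0), 0) + u : M × Γ × Γ).1 = (1, 1, 0) := by
          show (0, 1, 0) + u.1 = (1, 1, 0)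
          rw [h3]
          decide
        refine ⟨?_, ?_⟩
        · rw [h2]
          decide
        · rintro ⟨h3, -⟩
          rw [h2] at h3
          revert h3
          decide
      · refine key ((1, 0, 0), 0) ⟨Or.inr (Or.inl rfl), rfl⟩ ?_
        have h2 : (((1, 0, 0), 0) + u : M × Γ × Γ).1 = (1, 1, 0) := by
          show (1, 0, 0) + u.1 = (1, 1, 0)
          rw [h3]
          decide
        refine ⟨?_, ?_⟩
        · rw [h2]
          decide
        · rintro ⟨h3, -⟩
          rw [h2] at h3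
          revert h3
          decide
    · refine key 0 ⟨Or.inl rfl, rfl⟩ ?_
      rw [zero_add]
      exact ⟨h1, h2⟩

lemma cover {z : Gp} (hz : ¬ (z.1 ∈ A ∧ z.2 = 0)) : ∃ g ∈ B₀, ∃ g' ∈ B₀, g + g' = z := by
  obtain ⟨x, y, u⟩ := z
  by_cases hu : u = 0
  · subst hu
    refine ⟨(0, 0, (0, 0, 1), x, y), Or.inl ⟨rfl, Or.inl ⟨rfl, rfl⟩⟩,
      (x, y, (0, 0, 1), x, y), Or.inl ⟨rfl, Or.inr ⟨⟨rfl, rfl⟩, ?_⟩⟩, ?_⟩
    · rintro ⟨h1, h2⟩
      have h2 : y = 0 := h2
      exact hz ⟨h1, by rw [h2]; rfl⟩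
    · refine Prod.ext (zero_add x) (Prod.ext (zero_add y) (Prod.ext ?_
        (Prod.ext (two_mul_φ x) (two_mul_φ y))))
      show ((0, 0, 1) : M) + (0, 0, 1) = 0
      decide
  · obtain ⟨t, ht, s, hs, hts⟩ := exists_split hu
    refine ⟨(x, x, t), Or.inr (Or.inl ⟨ht, rfl⟩), (0, x + y, s), Or.inr (Or.inr ⟨hs, rfl⟩), ?_⟩
    refine Prod.ext (add_zero x) (Prod.ext ?_ hts)
    show x + (x + y) = y
    rw [← add_assoc, two_mul_φ, zero_add]

lemma eq_of_add {x y : Γ} (h : x + y = 0) : x = y := by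
  have := add_eq_of h
  rw [add_zero] at this
  exact this.symm

lemma no_cover {a : Γ} (ha : a ∈ A) {g g' : Gp} (hg : g ∈ B₀) (hg' : g' ∈ B₀) :
    g + g' ≠ (a, 0) := by
  intro h
  have ha0 : a ≠ 0 := by
    rintro rfl
    exact zero_notMem ha
  have e1 : g.1 + g'.1 = a := congrArg Prod.fst h
  have e2 : g.2.1 + g'.2.1 = 0 := congrArg (fun z : Gp => z.2.1) h
  have e3 : g.2.2.1 + g'.2.2.1 = 0 := congrArg (fun z : Gp => z.2.2.1) h
  have e4 : g.2.2.2.1 + g'.2.2.2.1 = 0 := congrArg (fun z : Gp => z.2.2.2.1) h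
  have e5 : g.2.2.2.2 + g'.2.2.2.2 = 0 := congrArg (fun z : Gp => z.2.2.2.2) h
  have f3 : g.2.2.1 = g'.2.2.1 := by
    revert e3
    generalize g.2.2.1 = c
    generalize g'.2.2.1 = d
    revert c d
    decide
  have f4 := eq_of_add e4
  have f5 := eq_of_add e5
  have f : g.2.2 = g'.2.2 := Prod.ext f3 (Prod.ext f4 f5)
  have f2 := eq_of_add e2
  rcases hg with ⟨m1, h1⟩ | ⟨m1, h1⟩ | ⟨m1, h1⟩
  · rcases hg' with ⟨m2, h2⟩ | ⟨m2, h2⟩ | ⟨m2, h2⟩
    · rcases h1 with ⟨h1, h1'⟩ | ⟨⟨h1, h1'⟩, h1''⟩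
      · rcases h2 with ⟨h2, h2'⟩ | ⟨⟨h2, h2'⟩, h2''⟩
        · rw [h1, h2, add_zero] at e1
          exact ha0 e1.symm
        · apply h2''
          rw [h1, zero_add] at e1
          rw [← h2, ← h2', e1, ← f2, h1']
          exact ⟨ha, rfl⟩
      · rcases h2 with ⟨h2, h2'⟩ | ⟨⟨h2, h2'⟩, h2''⟩
        · apply h1''
          rw [h2, add_zero] at e1
          rw [← h1, ← h1', e1, f2, h2']
          exact ⟨ha, rfl⟩
        · rw [h1, h2, f4, two_mul_φ] at e1
          exact ha0 e1.symm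
    · rw [← f] at m2
      have h3 := m2.1
      rw [m1] at h3
      revert h3
      decide
    · rw [← f] at m2
      exact m2.1 m1
  · rcases hg' with ⟨m2, h2⟩ | ⟨m2, h2⟩ | ⟨m2, h2⟩
    · rw [f] at m1
      have h3 := m1.1
      rw [m2] at h3
      revert h3
      decide
    · rw [h1, h2, f2, two_mul_φ] at e1
      exact ha0 e1.symm
    · rw [← f] at m2
      exact m2.2 m1
  · rcases hg' with ⟨m2, h2⟩ | ⟨m2, h2⟩ | ⟨m2, h2⟩
    · rw [f] at m1
      exact m1.1 m2
    · rw [← f] at m2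
      exact m1.2 m2
    · rw [h1, h2, add_zero] at e1
      exact ha0 e1.symm

/-! ### The transfer to the Cantor group -/

lemma exists_iso : ∃ E : (ℕ → ZMod 2) → Gp, Continuous E ∧ Function.Bijective E ∧
    ∀ x y, E (x + y) = E x + E y := by
  obtain ⟨ε⟩ : Nonempty ((List Bool ⊕ List Bool ⊕ Fin 3 ⊕ List Bool ⊕ List Bool) ≃ ℕ) :=
    nonempty_equiv_of_countable
  refine ⟨fun x => (fun s => x (ε (Sum.inl s)), fun s => x (ε (Sum.inr (Sum.inl s))),
    (x (ε (Sum.inr (Sum.inr (Sum.inl 0)))), x (ε (Sum.inr (Sum.inr (Sum.inl 1)))),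
      x (ε (Sum.inr (Sum.inr (Sum.inl 2))))),
    fun s => x (ε (Sum.inr (Sum.inr (Sum.inr (Sum.inl s))))),
    fun s => x (ε (Sum.inr (Sum.inr (Sum.inr (Sum.inr s)))))), by fun_prop, ⟨?_, ?_⟩,
    fun x y => rfl⟩
  · intro x y h
    simp only [Prod.mk.injEq] at h
    obtain ⟨h1, h2, ⟨h3, h4, h5⟩, h6, h7⟩ := h
    funext n
    obtain ⟨s, rfl⟩ := ε.surjective n
    rcases s with s | s | s | s | s
    · exact congrFun h1 s
    · exact congrFun h2 s
    · fin_cases s
      · exact h3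
      · exact h4
      · exact h5
    · exact congrFun h6 s
    · exact congrFun h7 s
  · rintro ⟨a, b, ⟨c, d, e⟩, p, q⟩
    refine ⟨fun n => Sum.elim a (Sum.elim b (Sum.elim ![c, d, e] (Sum.elim p q))) (ε.symm n), ?_⟩
    simp only [Equiv.symm_apply_apply, Sum.elim_inl, Sum.elim_inr]
    rfl

lemma borel_preimage {E : (ℕ → ZMod 2) → Gp} (hE : Continuous E) :
    MeasurableSet[borel (ℕ → ZMod 2)] (E ⁻¹' B₀) := by
  let _i : MeasurableSpace (ℕ → ZMod 2) := borel _
  have _j : BorelSpace (ℕ → ZMod 2) := ⟨rfl⟩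
  have hc : ∀ C : Set Gp, IsClosed C → MeasurableSet (E ⁻¹' C) := fun C hC =>
    (hC.preimage hE).measurableSet
  have hA : ∀ f : Gp → Γ, Continuous f → MeasurableSet {x | f (E x) ∈ A} := by
    intro f hf
    have h1 : {x | f (E x) ∈ A} = ⋃ m : ℕ, {x | f (E x) ∈ piece (Nat.unpair m).1 (Nat.unpair m).2} := by
      ext x
      rw [mem_ofPred_eq, A_eq, mem_iUnion, mem_iUnion]
      rfl
    rw [h1]
    refine MeasurableSet.iUnion fun m => ?_
    exact ((compact_piece _ _).isClosed.preimage (hf.comp hE)).measurableSet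
  have hm : ∀ c : M, MeasurableSet {x | (E x).2.2.1 = c} := fun c =>
    hc {g | g.2.2.1 = c} (isClosed_eq (by fun_prop) (by fun_prop))
  have m1 : MeasurableSet (E ⁻¹' B₁) := by
    refine (hm _).inter (MeasurableSet.union ?_ (MeasurableSet.inter ?_
      (MeasurableSet.compl (MeasurableSet.inter ?_ ?_))))
    · exact hc {g | g.1 = 0 ∧ g.2.1 = 0}
        ((isClosed_eq (by fun_prop) (by fun_prop)).inter (isClosed_eq (by fun_prop) (by fun_prop)))
    · exact hc {g | g.1 = g.2.2.2.1 ∧ g.2.1 = g.2.2.2.2}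
        ((isClosed_eq (by fun_prop) (by fun_prop)).inter (isClosed_eq (by fun_prop) (by fun_prop)))
    · exact hA (fun g => g.2.2.2.1) (by fun_prop)
    · exact hc {g | g.2.2.2.2 = 0} (isClosed_eq (by fun_prop) (by fun_prop))
  have mT : MeasurableSet {x | (E x).2.2 ∈ T₁} := by
    refine MeasurableSet.inter ((hm _).union ((hm _).union (hm _))) ?_
    exact hc {g | g.2.2.2 = 0} (isClosed_eq (by fun_prop) (by fun_prop))
  have m2 : MeasurableSet (E ⁻¹' B₂) := mT.inter
    (hc {g | g.1 = g.2.1} (isClosed_eq (by fun_prop) (by fun_prop)))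
  have m3 : MeasurableSet (E ⁻¹' B₃) := ((hm _).compl.inter mT.compl).inter
    (hc {g | g.1 = 0} (isClosed_eq (by fun_prop) (by fun_prop)))
  exact m1.union (m2.union m3)

/-- In ZFC there is a Borel set `B` in the Cantor group `ℕ → ZMod 2` with the following properties.
1. There is an uncountable set `H` such that the translates `B + x` with `x ∈ H` are
pairwise disjoint.
2. Each nonempty perfect set `P` contains different `x, y` such that `B + x` and `B + y`
are not disjoint. -/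
theorem result : ∃ B : Set (ℕ → ZMod 2), MeasurableSet[borel (ℕ → ZMod 2)] B ∧
    (∃ H : Set (ℕ → ZMod 2), ¬ H.Countable ∧
      ∀ x ∈ H, ∀ y ∈ H, x ≠ y → ((fun b => b + x) '' B) ∩ ((fun b => b + y) '' B) = ∅) ∧
    ∀ P : Set (ℕ → ZMod 2), Perfect P → P.Nonempty → ∃ x ∈ P, ∃ y ∈ P, x ≠ y ∧
      ((fun b => b + x) '' B) ∩ ((fun b => b + y) '' B) ≠ ∅ := by
  obtain ⟨E, hE, hb, hadd⟩ := exists_iso
  have two' : ∀ z : ℕ → ZMod 2, z + z = 0 := by
    intro z
    funext s
    exact CharTwo.add_self_eq_zero _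
  have htwo : ∀ g : Gp, g + g = 0 := by
    intro g
    obtain ⟨z, rfl⟩ := hb.2 g
    rw [← hadd, two']
    have h1 := hadd 0 0
    rw [add_zero] at h1
    have h2 : E 0 + 0 = E 0 + E 0 := by rw [add_zero]; exact h1
    exact (add_left_cancel h2).symm
  refine ⟨E ⁻¹' B₀, borel_preimage hE, ?_, ?_⟩
  · obtain ⟨H, hH1, hH2⟩ := exists_uncountable
    refine ⟨E ⁻¹' ((fun h => (h, (0 : Γ × M × Γ × Γ))) '' H), fun h => hH1 ?_, ?_⟩
    · have h1 := h.image E
      rw [Set.image_preimage_eq _ hb.2] at h1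
      exact Set.countable_of_injective_of_countable_image
        (Function.Injective.injOn fun h h' e => (Prod.mk.inj e).1) h1
    · rintro x ⟨h, hh, hx⟩ y ⟨h', hh', hy⟩ hxy
      rw [Set.eq_empty_iff_forall_notMem]
      rintro t ⟨⟨b, hbB, hbt⟩, ⟨c, hcB, hct⟩⟩
      have hx' : E x = (h, 0) := hx.symm
      have hy' : E y = (h', 0) := hy.symm
      have hne : h ≠ h' := by
        rintro rfl
        exact hxy (hb.1 (hx'.trans hy'.symm))
      refine no_cover (hH2 h hh h' hh' hne) (show E b ∈ B₀ from hbB) (show E c ∈ B₀ from hcB) ?_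
      have h1 : b + c = x + y := by
        have h2 : b + x = c + y := hbt.trans hct.symm
        calc b + c = (b + x) + x + c := by rw [add_assoc b, two', add_zero]
          _ = (c + c) + (x + y) := by rw [h2]; abel
          _ = x + y := by rw [two', zero_add]
      rw [← hadd, h1, hadd, hx', hy']
      exact Prod.ext rfl (add_zero _)
  · intro P hP hPne
    let _i := TopologicalSpace.upgradeIsCompletelyMetrizable (ℕ → ZMod 2)
    obtain ⟨F, hF1, hF2, hF3⟩ := hP.exists_nat_bool_injection hPne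
    by_contra hcon
    push Not at hcon
    have key : ∀ b b', b ≠ b' → (E (F b + F b')).1 ∈ A ∧ (E (F b + F b')).2 = 0 := by
      intro b b' hbb
      by_contra hcon2
      have h1 : F b ≠ F b' := fun h => hbb (hF3 h)
      have h2 := hcon _ (hF1 ⟨b, rfl⟩) _ (hF1 ⟨b', rfl⟩) h1
      obtain ⟨g, hg, g', hg', hgg⟩ := cover hcon2
      obtain ⟨c, rfl⟩ := hb.2 g
      obtain ⟨d, rfl⟩ := hb.2 g'
      rw [← hadd] at hgg
      have h3 : c + d = F b + F b' := hb.1 hgg
      rw [Set.eq_empty_iff_forall_notMem] at h2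
      refine h2 (c + F b) ⟨⟨c, hg, rfl⟩, ⟨d, hg', ?_⟩⟩
      show d + F b' = c + F b
      calc d + F b' = (c + c) + (d + F b') := by rw [two', zero_add]
        _ = c + ((c + d) + F b') := by abel
        _ = c + F b + (F b' + F b') := by rw [h3]; abel
        _ = c + F b := by rw [two', add_zero]
    have h2nd : ∀ b b', (E (F b)).2 = (E (F b')).2 := by
      intro b b'
      by_cases h : b = b'
      · rw [h]
      · have h1 := (key b b' h).2
        rw [hadd] at h1
        have h2 : (E (F b)).2 + (E (F b')).2 = 0 := h1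
        have h3 : (E (F b')).2 + (E (F b')).2 = 0 := congrArg Prod.snd (htwo (E (F b')))
        exact add_right_cancel (h2.trans h3.symm)
    obtain ⟨b, b', hbb, hnot⟩ := no_perfect_A (F := fun b => (E (F b)).1)
      (continuous_fst.comp (hE.comp hF2)) (by
        intro b b' h
        exact hF3 (hb.1 (Prod.ext h (h2nd b b'))))
    apply hnot
    have h1 := (key b b' hbb).1
    rw [hadd] at h1
    exact h1

end Pool.Agent.Results.MP_15e54c_lc.DisjointTranslates
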